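import Mathlib
import Pool.Agent.E8helper61.EF.Asm4
import Pool.Agent.E8helper61.EF.Num4
import Pool.Agent.E8helper61.EF.Small
import Pool.Agent.E8helper42.EF.Shift
import Pool.Agent.E8helper33.EF.Move
import Pool.Agent.E8helper91.EF.Free
import Pool.Agent.E8helper64.EF.Blk
import Pool.Agent.E8helper88.EF.SmallI
import Pool.Agent.E8helper99.EF.Rec
import Pool.Agent.E8helper26.EF.Total
import Pool.Agent.E8helper71.EF.Bb
import Pool.Agent.E8helper40.EF.Lower

set_option autoImplicit false

namespace Pool.Agent.Results.MP_4c8542_co.AllNSmallDH61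

/-- `A` is `k`-wise `(n-d)`-union: any `k` members, repetitions allowed, have a union with at most
`d` elements. -/
def KWiseUnion (n k d : ℕ) (A : Finset (Finset (Fin n))) : Prop :=
  ∀ f : Fin k → Finset (Fin n), (∀ j, f j ∈ A) → (Finset.univ.biUnion f).card ≤ d

/-- `f(n,k,d)` of the problem: the maximum over all `i` with `k i ≤ d` of
`2^(d - k i) * ∑_{j ≤ i} C(n - d + k i, j)`. -/
def frankl (n k d : ℕ) : ℕ :=
  (Finset.range (d / k + 1)).sup
    (fun i => 2 ^ (d - k * i) * ∑ j ∈ Finset.range (i + 1), (n - d + k * i).choose j)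

theorem result : ∀ k d : ℕ, 1 ≤ k → 9 * d ≤ 2 ^ k → ∀ n : ℕ, d ≤ n →
    IsGreatest {m : ℕ | ∃ A : Finset (Finset (Fin n)), KWiseUnion n k d A ∧ A.card = m}
      (frankl n k d) := by
  intro k d _ hd n hdn
  rcases Nat.lt_or_ge d k with hdk | hkd
  · exact Pool.Agent.E8helper61.EF.small_d Pool.Agent.E8helper40.EF.lower hdk hdn
  · have hk4 : 4 ≤ k := by
      by_contra hcon
      have h1 : k ≤ 3 := by omega
      have h2 : 2 ^ k ≤ 2 ^ 3 := Nat.pow_le_pow_right (by norm_num) h1
      omega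
    exact Pool.Agent.E8helper61.EF.exact4 (m := 3) Pool.Agent.E8helper42.EF.shift
      Pool.Agent.E8helper33.EF.move Pool.Agent.E8helper91.EF.free
      Pool.Agent.E8helper64.EF.blkT Pool.Agent.E8helper88.EF.smallI
      Pool.Agent.E8helper99.EF.recT Pool.Agent.E8helper26.EF.total
      Pool.Agent.E8helper71.EF.bbT Pool.Agent.E8helper40.EF.lower (by omega) hkd hdn
      (by norm_num) (by omega) (Pool.Agent.E8helper61.EF.num4 hk4 hd)

end Pool.Agent.Results.MP_4c8542_co.AllNSmallDH61
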