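import Mathlib
import Pool.Agent.E8helper61.EF.Asm2
import Pool.Agent.E8helper61.EF.Num2
import Pool.Agent.E8helper42.EF.Shift
import Pool.Agent.E8helper33.EF.Move
import Pool.Agent.E8helper68.EF.Near
import Pool.Agent.E8helper56.EF.Top
import Pool.Agent.E8helper64.EF.Small
import Pool.Agent.E8helper99.EF.Rec
import Pool.Agent.E8helper26.EF.Total
import Pool.Agent.E8helper40.EF.Lower
import Pool.Agent.E8helper38.EF.Vand
import Pool.Agent.E8helper51.EF.Nb

set_option autoImplicit false

namespace Pool.Agent.Results.MP_4c8542_co.PolynomialThresholdH61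

/-- `A` is `k`-wise `(n-d)`-union: any `k` members, repetitions allowed, have a union with at most
`d` elements. -/
def KWiseUnion (n k d : ℕ) (A : Finset (Finset (Fin n))) : Prop :=
  ∀ f : Fin k → Finset (Fin n), (∀ j, f j ∈ A) → (Finset.univ.biUnion f).card ≤ d

/-- `f(n,k,d)` of the problem: the maximum over all `i` with `k i ≤ d` of
`2^(d - k i) * ∑_{j ≤ i} C(n - d + k i, j)`. -/
def frankl (n k d : ℕ) : ℕ :=
  (Finset.range (d / k + 1)).sup
    (fun i => 2 ^ (d - k * i) * ∑ j ∈ Finset.range (i + 1), (n - d + k * i).choose j)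

theorem result : ∀ n k d : ℕ, 1 ≤ k → k ≤ d → 9 * (d / k) * (2 ^ k + d) + 2 * d ≤ n →
    IsGreatest {m : ℕ | ∃ A : Finset (Finset (Fin n)), KWiseUnion n k d A ∧ A.card = m}
      (frankl n k d) ∧
    frankl n k d = 2 ^ (d % k) * ∑ j ∈ Finset.range (d / k + 1), (n - d % k).choose j := by
  intro n k d hk hkd hn
  exact Pool.Agent.E8helper61.EF.exact2 Pool.Agent.E8helper42.EF.shift
    Pool.Agent.E8helper33.EF.move Pool.Agent.E8helper68.EF.nearT Pool.Agent.E8helper56.EF.top
    Pool.Agent.E8helper64.EF.small Pool.Agent.E8helper99.EF.recT Pool.Agent.E8helper26.EF.total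
    (Pool.Agent.E8helper61.EF.num2 Pool.Agent.E8helper38.EF.vand
      Pool.Agent.E8helper51.EF.nb)
    Pool.Agent.E8helper40.EF.lower hk hkd (by omega) hn

end Pool.Agent.Results.MP_4c8542_co.PolynomialThresholdH61
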